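import Mathlib

/-!
# Alternating one-counter automata and space bounds: definitions (problem MP_9ec89f_lc)
-/

namespace Pool.Agent.Lib.MP_9ec89f_lc

open Asymptotics Filter

/-- An alternating one-counter automaton over the alphabet `α`, with a one-way head. A transition
depends on the state, on the scanned symbol (`none` is the right end marker) and on the outcome
(`true` for zero) of the zero test of the counter. It gives the next state, says whether the head
moves to the right (`true`) or stays in place (`false`), and changes the counter by `-1`, `0` or
`1`. -/
structure ACA (α : Type) where
  /-- The states. -/
  Q : Type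
  /-- There are finitely many states. -/
  finQ : Finite Q
  /-- The initial state. -/
  start : Q
  /-- The universal states; the other states are existential. -/
  univ : Set Q
  /-- The accepting states. -/
  acc : Set Q
  /-- The possible transitions. -/
  δ : Q → Option α → Bool → Set (Q × Bool × SignType)

variable {α : Type}

/-- A configuration: the state, the part of the input from the head position on (the scanned
symbol first; it is empty when the head is on the right end marker) and the counter value. -/
structure Config (M : ACA α) where
  /-- The state. -/
  state : M.Q
  /-- The input from the head position on. -/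
  input : List α
  /-- The value of the counter. -/
  counter : ℕ

/-- One step. The head cannot move from the end marker, and the counter stays nonnegative. -/
def Step (M : ACA α) (x y : Config M) : Prop :=
  ∃ (mv : Bool) (d : SignType),
    (y.state, mv, d) ∈ M.δ x.state x.input.head? (decide (x.counter = 0)) ∧
    (if mv then ∃ a, x.input = a :: y.input else x.input = y.input) ∧
    (y.counter : ℤ) = (x.counter : ℤ) + (d : ℤ)

/-- The initial configuration on the input `w`. -/
def ACA.init (M : ACA α) (w : List α) : Config M := ⟨M.start, w, 0⟩

/-- `y` is reached from `x` by a computation of `n` steps. -/
inductive Steps (M : ACA α) : ℕ → Config M → Config M → Prop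
  | refl (x : Config M) : Steps M 0 x x
  | tail {n : ℕ} {x y z : Config M} : Steps M n x y → Step M y z → Steps M (n + 1) x z

/-- `y` is reached from `x` by some computation. -/
def Reach (M : ACA α) (x y : Config M) : Prop := ∃ n, Steps M n x y

/-- There is an accepting computation tree with root `x` all of whose configurations have
a counter value in `b`: a finite tree whose leaves have accepting states, where an inner node with
an existential state has one successor configuration as its child, and an inner node with
a universal state has all its successor configurations (at least one) as its children. -/
inductive AccTree (M : ACA α) (b : Set ℕ) : Config M → Prop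
  | leaf {x : Config M} : x.counter ∈ b → x.state ∈ M.acc → AccTree M b x
  | exist {x y : Config M} : x.counter ∈ b → x.state ∉ M.univ → Step M x y → AccTree M b y →
      AccTree M b x
  | univ {x y : Config M} : x.counter ∈ b → x.state ∈ M.univ → Step M x y →
      (∀ z, Step M x z → AccTree M b z) → AccTree M b x

/-- The recognized language. -/
def ACA.language (M : ACA α) : Language α := {w | AccTree M Set.univ (M.init w)}

/-- The modes. -/
inductive Mode : Type
  | realtime : Mode
  | oneWay : Mode

/-- Realtime: for some constant `c`, in every `c` consecutive steps of a computation the head
moves to the right at least once, that is, the part of the input from the head position on gets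
shorter. -/
def ACA.IsRealtime (M : ACA α) : Prop :=
  ∃ c : ℕ, ∀ (w : List α) (x y : Config M), Reach M (M.init w) x → Steps M c x y →
    y.input.length < x.input.length

/-- The automaton works in the given mode (all automata considered are one-way). -/
def ACA.HasMode (M : ACA α) : Mode → Prop
  | .realtime => M.IsRealtime
  | .oneWay => True

/-- The space notions. -/
inductive SpaceNotion : Type
  | strong : SpaceNotion
  | middle : SpaceNotion
  | weak : SpaceNotion

/-- The automaton works in strong, middle or weak space `s`. -/
def ACA.WorksInSpace (M : ACA α) (s : ℕ → ℕ) : SpaceNotion → Prop
  | .strong => ∀ (w : List α) (x : Config M), Reach M (M.init w) x → x.counter ≤ s w.length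
  | .middle => ∀ w ∈ M.language, ∀ x : Config M, Reach M (M.init w) x → x.counter ≤ s w.length
  | .weak => ∀ w ∈ M.language, AccTree M {k | k ≤ s w.length} (M.init w)

/-- `L` is recognized by an alternating one-counter automaton of the given mode in space `s`. -/
def Recognized (m : Mode) (σ : SpaceNotion) (s : ℕ → ℕ) (L : Language α) : Prop :=
  ∃ M : ACA α, M.HasMode m ∧ M.language = L ∧ M.WorksInSpace s σ

/-- `s` is a tight space bound: some nonregular language over `α` is recognized in space `O(s)`,
while none is recognized in space `s'` for any `s' = o(s)`. -/
def IsTightBound (m : Mode) (α : Type) (σ : SpaceNotion) (s : ℕ → ℕ) : Prop :=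
  (∃ (L : Language α) (t : ℕ → ℕ), ¬ L.IsRegular ∧
    (fun n => (t n : ℝ)) =O[atTop] (fun n => (s n : ℝ)) ∧ Recognized m σ t L) ∧
  (∀ (L : Language α) (t : ℕ → ℕ), ¬ L.IsRegular →
    (fun n => (t n : ℝ)) =o[atTop] (fun n => (s n : ℝ)) → ¬ Recognized m σ t L)

end Pool.Agent.Lib.MP_9ec89f_lc
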