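import Pool.Agent.Lib.MP_9ec89f_lc.Defs

section

namespace Pool.Agent.Lib.MP_9ec89f_lc

open Relation

variable {α : Type} {M : ACA α}

theorem AccTree.counter_mem {b : Set ℕ} {x : Config M} (h : AccTree M b x) : x.counter ∈ b := by
  cases h <;> assumption

theorem AccTree.mono {b b' : Set ℕ} (hb : b ⊆ b') {x : Config M} (h : AccTree M b x) :
    AccTree M b' x := by
  induction h with
  | leaf h1 h2 => exact .leaf (hb h1) h2
  | exist h1 h2 h3 _ ih => exact .exist (hb h1) h2 h3 ih
  | univ h1 h2 h3 _ ih => exact .univ (hb h1) h2 h3 ih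

theorem reach_iff {x y : Config M} : Reach M x y ↔ ReflTransGen (Step M) x y := by
  constructor
  · rintro ⟨n, h⟩
    induction h with
    | refl x => exact .refl
    | tail _ h ih => exact ih.tail h
  · intro h
    induction h with
    | refl => exact ⟨0, .refl _⟩
    | tail _ h ih => obtain ⟨n, hn⟩ := ih; exact ⟨n + 1, hn.tail h⟩

/-- If all reachable counter values are in `b'`, the tree is a tree for `b'`. -/
theorem AccTree.restrict {b b' : Set ℕ} {x : Config M} (h : AccTree M b x)
    (hr : ∀ y, ReflTransGen (Step M) x y → y.counter ∈ b') : AccTree M b' x := by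
  induction h with
  | leaf h1 h2 => exact .leaf (hr _ .refl) h2
  | exist h1 h2 h3 _ ih => exact .exist (hr _ .refl) h2 h3 (ih fun y hy => hr y (.head h3 hy))
  | univ h1 h2 h3 _ ih =>
    exact .univ (hr _ .refl) h2 h3 fun z hz => ih z hz fun y hy => hr y (.head hz hy)

/-- The accepted pairs (state, counter) with the remaining input `v`. -/
def RS (M : ACA α) (b : Set ℕ) (v : List α) : Set (M.Q × ℕ) :=
  {p | AccTree M b ⟨p.1, v, p.2⟩}

theorem acc_cons {b : Set ℕ} {a : α} {v' : List α} {x : Config M} (h : AccTree M b x) :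
    ∀ v, x.input = a :: v → RS M b v = RS M b v' →
      AccTree M b ⟨x.state, a :: v', x.counter⟩ := by
  -- transfer of steps
  have key : ∀ (x : Config M) (v : List α), x.input = a :: v → ∀ z : Config M,
      Step M x z → (z.input = a :: v ∧ Step M ⟨x.state, a :: v', x.counter⟩
        ⟨z.state, a :: v', z.counter⟩) ∨ (z.input = v ∧ Step M ⟨x.state, a :: v', x.counter⟩
        ⟨z.state, v', z.counter⟩) := by
    rintro x v hx z ⟨mv, d, h1, h2, h3⟩
    rw [hx] at h1 h2
    cases mv with
    | false =>
      left
      refine ⟨by simpa using h2.symm, false, d, h1, ?_, h3⟩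
      simp
    | true =>
      right
      simp only [if_true, List.cons.injEq] at h2
      obtain ⟨a', h4, h5⟩ := h2
      refine ⟨h5.symm, true, d, h1, ?_, h3⟩
      simp
  have key2 : ∀ (x : Config M) (v : List α), x.input = a :: v → ∀ z : Config M,
      Step M ⟨x.state, a :: v', x.counter⟩ z → 
        (z.input = a :: v' ∧ Step M x ⟨z.state, a :: v, z.counter⟩) ∨
        (z.input = v' ∧ Step M x ⟨z.state, v, z.counter⟩) := by
    rintro x v hx z ⟨mv, d, h1, h2, h3⟩
    cases mv with
    | false =>
      left
      refine ⟨by simpa using h2.symm, false, d, ?_, ?_, h3⟩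
      · rw [hx]; exact h1
      · simp [hx]
    | true =>
      right
      simp only [if_true, List.cons.injEq] at h2
      obtain ⟨a', h4, h5⟩ := h2
      refine ⟨h5.symm, true, d, ?_, ?_, h3⟩
      · rw [hx]; exact h1
      · simp [hx]
  induction h with
  | leaf h1 h2 => intro v hv hR; exact .leaf h1 h2
  | @exist x y h1 h2 h3 h4 ih =>
    intro v hv hR
    rcases key x v hv y h3 with ⟨h5, h6⟩ | ⟨h5, h6⟩
    · exact .exist h1 h2 h6 (ih v h5 hR)
    · refine .exist h1 h2 h6 ?_
      have : (y.state, y.counter) ∈ RS M b v := by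
        show AccTree M b ⟨y.state, v, y.counter⟩
        rw [← h5]; exact h4
      rw [hR] at this
      exact this
  | @univ x y h1 h2 h3 h4 ih =>
    intro v hv hR
    obtain ⟨y', hy'⟩ : ∃ y', Step M ⟨x.state, a :: v', x.counter⟩ y' := by
      rcases key x v hv y h3 with ⟨_, h6⟩ | ⟨_, h6⟩
      · exact ⟨_, h6⟩
      · exact ⟨_, h6⟩
    refine .univ h1 h2 hy' fun z hz => ?_
    rcases key2 x v hv z hz with ⟨h5, h6⟩ | ⟨h5, h6⟩
    · have := ih _ h6 v rfl hR
      rw [← h5] at this
      exact this
    · have h7 : (z.state, z.counter) ∈ RS M b v := h4 _ h6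
      rw [hR] at h7
      have h8 : AccTree M b ⟨z.state, v', z.counter⟩ := h7
      rw [← h5] at h8
      exact h8

theorem RS_cons {b : Set ℕ} (a : α) {v v' : List α} (h : RS M b v = RS M b v') :
    RS M b (a :: v) = RS M b (a :: v') := by
  ext ⟨q, c⟩
  constructor
  · intro h1; exact acc_cons h1 v rfl h
  · intro h1; exact acc_cons h1 v' rfl h.symm

theorem RS_append {b : Set ℕ} (x : List α) {v v' : List α} (h : RS M b v = RS M b v') :
    RS M b (x ++ v) = RS M b (x ++ v') := by
  induction x with
  | nil => exact h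
  | cons a x ih => exact RS_cons a ih

/-- A criterion for regularity. -/
theorem isRegular_of_finite_range {σ : Type} (R : List α → σ) (hfin : (Set.range R).Finite)
    (hcong : ∀ a v v', R v = R v' → R (a :: v) = R (a :: v')) (L : Language α)
    (hL : ∀ v v', R v = R v' → v ∈ L → v' ∈ L) : L.IsRegular := by
  have hc : ∀ x v v', R v = R v' → R (x ++ v) = R (x ++ v') := by
    intro x v v' h
    induction x with
    | nil => exact h
    | cons a x ih => exact hcong a _ _ ih
  rw [Language.isRegular_iff_finite_range_leftQuotient]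
  refine (hfin.finite_subsets.image (fun T : Set σ => (R ⁻¹' T : Set (List α)))).subset ?_
  rintro _ ⟨x, rfl⟩
  refine ⟨R '' {y | x ++ y ∈ L}, Set.image_subset_range _ _, ?_⟩
  apply Set.ext
  intro y
  constructor
  · rintro ⟨y', hy', e⟩
    exact hL _ _ (hc x _ _ e) hy'
  · intro hy
    exact ⟨y, hy, rfl⟩

theorem finite_range_RS {b : Set ℕ} (hb : b.Finite) : (Set.range (RS M b)).Finite := by
  have := M.finQ
  refine ((Set.toFinite (Set.univ : Set M.Q)).prod hb).finite_subsets.subset ?_
  rintro _ ⟨v, rfl⟩
  rintro ⟨q, c⟩ h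
  exact ⟨trivial, AccTree.counter_mem h⟩

/-- Automata with a bounded counter recognize regular languages. -/
theorem isRegular_bounded {b : Set ℕ} (hb : b.Finite) :
    Language.IsRegular ({w | AccTree M b (M.init w)} : Language α) := by
  refine isRegular_of_finite_range (RS M b) (finite_range_RS hb) (fun a v v' h => RS_cons a h) _ ?_
  intro v v' h hv
  have : (M.start, 0) ∈ RS M b v := hv
  rw [h] at this
  exact this

/-! ### Weak space -/

/-- the language accepted with counter values at most `B` -/
def LB (M : ACA α) (B : ℕ) : Set (List α) := {w | AccTree M {k | k ≤ B} (M.init w)}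

theorem LB_mono {B B' : ℕ} (h : B ≤ B') : LB M B ⊆ LB M B' :=
  fun _ hw => AccTree.mono (fun _ hk => le_trans hk h) hw

theorem short_word {k : ℕ} (h : (LB M (k + 1) \ LB M k).Nonempty) :
    ∃ w ∈ LB M (k + 1) \ LB M k, w.length < 4 ^ (Nat.card M.Q * (k + 2)) := by
  classical
  have := M.finQ
  have hex : ∃ n, ∃ w ∈ LB M (k + 1) \ LB M k, w.length = n := by
    obtain ⟨w, hw⟩ := h
    exact ⟨_, w, hw, rfl⟩
  obtain ⟨w, hw, hlen⟩ := Nat.find_spec hex
  have hmin := fun m (hm : m < Nat.find hex) => Nat.find_min hex hm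
  refine ⟨w, hw, ?_⟩
  by_contra hcon
  push Not at hcon
  rw [← hlen] at hmin
  let g : Fin (w.length + 1) → Set (M.Q × Fin (k + 2)) × Set (M.Q × Fin (k + 2)) := fun i =>
    ({p | (p.1, (p.2 : ℕ)) ∈ RS M {j | j ≤ k + 1} (w.drop i)},
      {p | (p.1, (p.2 : ℕ)) ∈ RS M {j | j ≤ k} (w.drop i)})
  have hcard : Nat.card (Set (M.Q × Fin (k + 2)) × Set (M.Q × Fin (k + 2))) =
      4 ^ (Nat.card M.Q * (k + 2)) := by
    cases nonempty_fintype M.Q
    simp only [Nat.card_eq_fintype_card, Fintype.card_set, Fintype.card_prod,
      Fintype.card_fin]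
    rw [← mul_pow]
    norm_num
  have hnot : ¬ Function.Injective g := by
    intro hg
    have := Nat.card_le_card_of_injective g hg
    rw [hcard, Nat.card_eq_fintype_card, Fintype.card_fin] at this
    omega
  -- two suffixes with the same data
  obtain ⟨i, i', hlt, he⟩ : ∃ i i' : Fin (w.length + 1), i < i' ∧ g i = g i' := by
    simp only [Function.Injective, not_forall] at hnot
    obtain ⟨i, i', he, hne⟩ := hnot
    rcases lt_or_gt_of_ne hne with hlt | hlt
    · exact ⟨i, i', hlt, he⟩
    · exact ⟨i', i, hlt, he.symm⟩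
  have e1 : RS M {j | j ≤ k + 1} (w.drop i) = RS M {j | j ≤ k + 1} (w.drop i') := by
    ext ⟨q, c⟩
    by_cases hc : c < k + 2
    · have := congrArg (fun s => (q, (⟨c, hc⟩ : Fin (k + 2))) ∈ s.1) he
      simpa [g] using this
    · constructor
      · intro hh
        have : c ≤ k + 1 := AccTree.counter_mem hh
        omega
      · intro hh
        have : c ≤ k + 1 := AccTree.counter_mem hh
        omega
  have e2 : RS M {j | j ≤ k} (w.drop i) = RS M {j | j ≤ k} (w.drop i') := by
    ext ⟨q, c⟩
    by_cases hc : c < k + 2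
    · have := congrArg (fun s => (q, (⟨c, hc⟩ : Fin (k + 2))) ∈ s.2) he
      simpa [g] using this
    · constructor
      · intro hh
        have : c ≤ k := AccTree.counter_mem hh
        omega
      · intro hh
        have : c ≤ k := AccTree.counter_mem hh
        omega
  have hi' : (i' : ℕ) ≤ w.length := by omega
  have hii : (i : ℕ) < i' := hlt
  refine hmin (w.take i ++ w.drop i').length ?_ ⟨w.take i ++ w.drop i', ⟨?_, ?_⟩, rfl⟩
  · simp only [List.length_append, List.length_take, List.length_drop]
    omega
  · have h1 : (M.start, 0) ∈ RS M {j | j ≤ k + 1} (w.take i ++ w.drop i) := by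
      rw [List.take_append_drop]; exact hw.1
    rw [RS_append _ e1] at h1
    exact h1
  · intro h2
    apply hw.2
    have h1 : (M.start, 0) ∈ RS M {j | j ≤ k} (w.take i ++ w.drop i') := h2
    rw [← RS_append _ e2, List.take_append_drop] at h1
    exact h1

/-! ### Asymptotics -/

open Asymptotics Filter

theorem eventually_of_littleO {t s : ℕ → ℕ}
    (h : (fun n => (t n : ℝ)) =o[atTop] (fun n => (s n : ℝ))) (a : ℕ) :
    ∀ᶠ n in atTop, a * t n ≤ s n := by
  have h1 := h.def (c := 1 / ((a : ℝ) + 1)) (by positivity)
  filter_upwards [h1] with n hn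
  rw [Real.norm_natCast, Real.norm_natCast] at hn
  have h2 : ((a : ℝ) + 1) * (t n : ℝ) ≤ (s n : ℝ) := by
    have h3 : ((a : ℝ) + 1) * (t n : ℝ) ≤ ((a : ℝ) + 1) * (1 / ((a : ℝ) + 1) * (s n : ℝ)) :=
      mul_le_mul_of_nonneg_left hn (by positivity)
    rw [← mul_assoc, mul_one_div_cancel (by positivity), one_mul] at h3
    exact h3
  have h4 : (a : ℝ) * (t n : ℝ) ≤ (s n : ℝ) := by
    have : (0 : ℝ) ≤ (t n : ℝ) := by positivity
    nlinarith
  exact_mod_cast h4

/-- Lower bound for weak space. -/
theorem weak_lower {L : Language α} (hreg : ¬ L.IsRegular) {t : ℕ → ℕ}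
    (ht : (fun n => (t n : ℝ)) =o[atTop] (fun n => (Nat.log 2 n : ℝ))) {M : ACA α}
    (hL : M.language = L) (hw : M.WorksInSpace t .weak) : False := by
  -- the weak bound
  have hin : ∀ w ∈ L, w ∈ LB M (t w.length) := by
    intro w hwL
    rw [← hL] at hwL
    exact hw w hwL
  have hsub : ∀ B, LB M B ⊆ L := by
    intro B w hB
    rw [← hL]
    exact AccTree.mono (Set.subset_univ _) hB
  have hne : ∀ h, ∃ w ∈ L, w ∉ LB M h := by
    intro h
    by_contra hcon
    push Not at hcon
    apply hreg
    have : L = ({w | AccTree M {k | k ≤ h} (M.init w)} : Language α) :=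
      Set.Subset.antisymm hcon (hsub h)
    rw [this]
    exact isRegular_bounded (Set.finite_le_nat h)
  have hlev : ∀ h, ∃ k, h ≤ k ∧ (LB M (k + 1) \ LB M k).Nonempty := by
    intro h
    obtain ⟨w, hwL, hwh⟩ := hne h
    have hex : ∃ B, w ∈ LB M B := ⟨_, hin w hwL⟩
    classical
    have h1 := Nat.find_spec hex
    have h2 := fun m (hm : m < Nat.find hex) => Nat.find_min hex hm
    obtain ⟨B, hB⟩ : ∃ B, B = Nat.find hex := ⟨_, rfl⟩
    rw [← hB] at h1 h2
    have h3 : h < B := by
      by_contra h4
      exact hwh (LB_mono (by omega) h1)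
    refine ⟨B - 1, by omega, w, ?_, h2 _ (by omega)⟩
    rw [Nat.sub_add_cancel (by omega)]
    exact h1
  obtain ⟨A, hA⟩ : ∃ A, A = Nat.card M.Q := ⟨_, rfl⟩
  obtain ⟨N0, hN0⟩ := eventually_atTop.mp (eventually_of_littleO ht (8 * (A + 1)))
  obtain ⟨k, hk1, hk2⟩ := hlev ((Finset.range N0).sup t + 1)
  obtain ⟨w, hw1, hw2⟩ := short_word hk2
  rw [← hA] at hw2
  have h5 : k + 1 ≤ t w.length := by
    by_contra hcon
    exact hw1.2 (LB_mono (by omega) (hin w (hsub _ hw1.1)))
  have h6 : N0 ≤ w.length := by
    by_contra hcon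
    have : t w.length ≤ (Finset.range N0).sup t :=
      Finset.le_sup (f := t) (Finset.mem_range.mpr (by omega))
    omega
  have h7 := hN0 _ h6
  have h8 : Nat.log 2 w.length ≤ 2 * (A * (k + 2)) := by
    have : (4 : ℕ) ^ (A * (k + 2)) = 2 ^ (2 * (A * (k + 2))) := by
      rw [show (4 : ℕ) = 2 ^ 2 by norm_num, ← pow_mul]
    rw [this] at hw2
    exact (Nat.log_lt_of_lt_pow' (by
      intro h0
      simp only [mul_eq_zero] at h0
      rcases h0 with h0 | h0 | h0
      · omega
      · have := M.finQ
        have : Nonempty M.Q := ⟨M.start⟩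
        have := Nat.card_pos (α := M.Q)
        omega
      · omega) hw2).le
  have h9 : 8 * (A + 1) * (k + 1) ≤ 8 * (A + 1) * t w.length := Nat.mul_le_mul_left _ h5
  nlinarith

end Pool.Agent.Lib.MP_9ec89f_lc
end

section

section

namespace Pool.Agent.Lib.MP_9ec89f_lc

open Relation

variable {α : Type} {M : ACA α}

/-- Paths with counter values at least `j`. -/
def PosReach (M : ACA α) (j : ℕ) (x y : Config M) : Prop :=
  ReflTransGen (fun x y => Step M x y ∧ j ≤ x.counter ∧ j ≤ y.counter) x y

theorem PosReach.mono {j j' : ℕ} (hj : j' ≤ j) {x y : Config M} (h : PosReach M j x y) :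
    PosReach M j' x y :=
  ReflTransGen.mono (r := fun x y => Step M x y ∧ j ≤ x.counter ∧ j ≤ y.counter)
    (fun _ _ h => ⟨h.1, hj.trans h.2.1, hj.trans h.2.2⟩) _ _ h

theorem posReach_zero {x y : Config M} (h : ReflTransGen (Step M) x y) : PosReach M 0 x y :=
  ReflTransGen.mono (r := Step M) (fun _ _ h => ⟨h, Nat.zero_le _, Nat.zero_le _⟩) _ _ h

theorem Step.counter_le {x y : Config M} (h : Step M x y) : y.counter ≤ x.counter + 1 := by
  obtain ⟨mv, d, h1, h2, h3⟩ := h
  have : (d : ℤ) ≤ 1 := by cases d <;> decide
  omega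

theorem level {x0 y : Config M} (h : ReflTransGen (Step M) x0 y) (h0 : x0.counter = 0) :
    ∀ j ≤ y.counter, ∃ z, z.counter = j ∧ ReflTransGen (Step M) x0 z ∧ PosReach M j z y := by
  induction h with
  | refl => intro j hj; exact ⟨x0, by omega, .refl, .refl⟩
  | @tail y y' h1 h2 ih =>
    intro j hj
    by_cases hjy : j ≤ y.counter
    · obtain ⟨z, hz1, hz2, hz3⟩ := ih j hjy
      exact ⟨z, hz1, hz2, hz3.tail ⟨h2, hjy, hj⟩⟩
    · have := h2.counter_le
      exact ⟨y', by omega, h1.tail h2, .refl⟩

theorem chain {x0 : Config M} (h0 : x0.counter = 0) : ∀ (n : ℕ) (y : Config M),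
    ReflTransGen (Step M) x0 y → y.counter = n → ∃ z : ℕ → Config M, z n = y ∧
      (∀ j ≤ n, (z j).counter = j ∧ ReflTransGen (Step M) x0 (z j)) ∧
      ∀ j < n, PosReach M j (z j) (z (j + 1)) := by
  intro n
  induction n with
  | zero =>
    intro y h hy
    refine ⟨fun _ => y, rfl, ?_, ?_⟩
    · intro j hj
      have : j = 0 := by omega
      subst this
      exact ⟨hy, h⟩
    · intro j hj; omega
  | succ n ih =>
    intro y h hy
    obtain ⟨z', hz1, hz2, hz3⟩ := level h h0 n (by omega)
    obtain ⟨z, h1, h2, h3⟩ := ih z' hz2 hz1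
    refine ⟨fun j => if j ≤ n then z j else y, by simp, ?_, ?_⟩
    · intro j hj
      by_cases hjn : j ≤ n
      · simp only [if_pos hjn]; exact h2 j hjn
      · simp only [if_neg hjn]; exact ⟨by omega, h⟩
    · intro j hj
      by_cases hjn : j + 1 ≤ n
      · simp only [if_pos hjn, if_pos (show j ≤ n by omega)]
        exact h3 j (by omega)
      · have : j = n := by omega
        subst this
        simp only [if_neg hjn, le_refl, if_true, h1]
        exact hz3

theorem chain_trans {z : ℕ → Config M} {n : ℕ} (h : ∀ j < n, PosReach M j (z j) (z (j + 1))) :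
    ∀ j k, j ≤ k → k ≤ n → PosReach M j (z j) (z k) := by
  intro j k hjk
  induction k, hjk using Nat.le_induction with
  | base => intro _; exact .refl
  | succ k hjk ih =>
    intro hk
    exact (ih (by omega)).trans ((h k (by omega)).mono hjk)

/-- Pumping: a high counter value forces a counter increasing loop. -/
theorem loop_exists [Finite α] {x0 y : Config M} (h0 : x0.counter = 0)
    (h : ReflTransGen (Step M) x0 y) (hy : Nat.card (M.Q × Option α) < y.counter) :
    ∃ (x x' : Config M), x.state = x'.state ∧ x.input.head? = x'.input.head? ∧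
      1 ≤ x.counter ∧ x.counter < x'.counter ∧ ReflTransGen (Step M) x0 x ∧
      PosReach M x.counter x x' := by
  have := M.finQ
  obtain ⟨z, hz1, hz2, hz3⟩ := chain h0 y.counter y h rfl
  let g : Fin y.counter → M.Q × Option α := fun i => ((z (i + 1)).state, (z (i + 1)).input.head?)
  have hnot : ¬ Function.Injective g := by
    intro hg
    have := Nat.card_le_card_of_injective g hg
    rw [Nat.card_eq_fintype_card (α := Fin y.counter), Fintype.card_fin] at this
    omega
  obtain ⟨i, i', hlt, he⟩ : ∃ i i' : Fin y.counter, i < i' ∧ g i = g i' := by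
    simp only [Function.Injective, not_forall] at hnot
    obtain ⟨i, i', he, hne⟩ := hnot
    rcases lt_or_gt_of_ne hne with hlt | hlt
    · exact ⟨i, i', hlt, he⟩
    · exact ⟨i', i, hlt, he.symm⟩
  have hlt' : (i : ℕ) < i' := hlt
  have c1 := (hz2 (i + 1) (by omega)).1
  have c2 := (hz2 (i' + 1) (by omega)).1
  refine ⟨z (i + 1), z (i' + 1), congrArg Prod.fst he, congrArg Prod.snd he, by omega, by omega,
    (hz2 (i + 1) (by omega)).2, ?_⟩
  rw [c1]
  exact chain_trans hz3 _ _ (by omega) (by omega)

theorem suffix_of_reach {x y : Config M} (h : ReflTransGen (Step M) x y) :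
    ∃ e, x.input = e ++ y.input := by
  induction h with
  | refl => exact ⟨[], rfl⟩
  | @tail y z h1 h2 ih =>
    obtain ⟨e, he⟩ := ih
    obtain ⟨mv, d, -, h4, -⟩ := h2
    cases mv with
    | false =>
      have : y.input = z.input := by simpa using h4
      exact ⟨e, by rw [he, this]⟩
    | true =>
      simp only [if_true] at h4
      obtain ⟨a, ha⟩ := h4
      exact ⟨e ++ [a], by rw [he, ha]; simp⟩

theorem PosReach.reach {j : ℕ} {x y : Config M} (h : PosReach M j x y) :
    ReflTransGen (Step M) x y :=
  ReflTransGen.mono (r := fun x y => Step M x y ∧ j ≤ x.counter ∧ j ≤ y.counter)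
    (fun _ _ h => h.1) _ _ h

theorem head?_append_congr {e u u₁ : List α} (h : u.head? = u₁.head?) :
    (e ++ u).head? = (e ++ u₁).head? := by
  cases e with
  | nil => exact h
  | cons a e => rfl

/-- Replacing the unread part of the input and shifting the counter. -/
theorem replace {j t : ℕ} (hjt : 1 ≤ j ∨ t = 0) {u u₁ : List α} (hu : u.head? = u₁.head?)
    {x y : Config M} (h : PosReach M j x y) (hy : y.input = u) :
    ∀ e, x.input = e ++ u → ReflTransGen (Step M) ⟨x.state, e ++ u₁, x.counter + t⟩
      ⟨y.state, u₁, y.counter + t⟩ := by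
  induction h using ReflTransGen.head_induction_on with
  | refl =>
    intro e he
    rw [hy] at he
    have : e = [] := by
      have := congrArg List.length he
      rw [List.length_append] at this
      exact List.length_eq_zero_iff.mp (by omega)
    subst this
    exact .refl
  | @head x x' hstep hrest ih =>
    intro e he
    obtain ⟨⟨mv, d, h1, h2, h3⟩, hj1, hj2⟩ := hstep
    have hz : decide (x.counter + t = 0) = decide (x.counter = 0) := by
      rcases hjt with hj | ht
      · simp only [decide_eq_decide]; omega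
      · simp [ht]
    have h3' : ((x'.counter + t : ℕ) : ℤ) = ((x.counter + t : ℕ) : ℤ) + (d : ℤ) := by
      push_cast; rw [h3]; ring
    have h1' : (x'.state, mv, d) ∈ M.δ x.state (e ++ u₁).head? (decide (x.counter + t = 0)) := by
      rw [hz, ← head?_append_congr hu, ← he]; exact h1
    cases mv with
    | false =>
      have h2' : x.input = x'.input := by simpa using h2
      refine .head (b := ⟨x'.state, e ++ u₁, x'.counter + t⟩) ⟨false, d, h1', ?_, h3'⟩
        (ih e (by rw [← h2', he]))
      simp
    | true =>
      simp only [if_true] at h2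
      obtain ⟨a, ha⟩ := h2
      obtain ⟨e', he'⟩ := suffix_of_reach (PosReach.reach hrest)
      rw [hy] at he'
      have hex : e = a :: e' := by
        have : a :: (e' ++ u) = e ++ u := by rw [← he', ← ha, he]
        exact List.append_cancel_right (by rw [← this]; rfl)
      refine .head (b := ⟨x'.state, e' ++ u₁, x'.counter + t⟩) ⟨true, d, h1', ?_, h3'⟩ (ih e' he')
      simp only [if_true]
      exact ⟨a, by rw [hex]; rfl⟩

/-- Iterating a loop. -/
theorem iterate_loop {x x' : Config M} (hst : x.state = x'.state)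
    (hc : 1 ≤ x.counter) (h : PosReach M x.counter x x') {e : List α}
    (he : x.input = e ++ x'.input) (hhead : x.input.head? = x'.input.head?)
    {g : ℕ} (hg : x'.counter = x.counter + g) {u₁ : List α}
    (hu₁ : x'.input.head? = u₁.head?) :
    ∀ (m t : ℕ), ReflTransGen (Step M)
      ⟨x.state, (List.replicate m e).flatten ++ u₁, x.counter + t⟩
      ⟨x.state, u₁, x.counter + t + m * g⟩ := by
  intro m
  induction m with
  | zero => intro t; simpa using .refl
  | succ m ih =>
    intro t
    have hh : x'.input.head? = ((List.replicate m e).flatten ++ u₁).head? := by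
      cases m with
      | zero => simpa using hu₁
      | succ m =>
        cases e with
        | nil => simpa using hu₁
        | cons a e =>
          rw [← hhead, he]
          simp [List.replicate_succ]
    have h1 := replace (Or.inl hc) (t := t) hh h rfl e he
    have h2 := ih (t + g)
    rw [List.replicate_succ, List.flatten_cons, List.append_assoc]
    refine h1.trans ?_
    rw [hg, ← hst]
    have e1 : x.counter + g + t = x.counter + (t + g) := by ring
    have e2 : x.counter + t + (m + 1) * g = x.counter + (t + g) + m * g := by ring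
    rw [e1, e2]
    exact h2

open Asymptotics Filter

/-- Lower bound for strong space. -/
theorem strong_lower [Finite α] {L : Language α} (hreg : ¬ L.IsRegular) {t : ℕ → ℕ}
    (ht : (fun n => (t n : ℝ)) =o[atTop] (fun n => ((n : ℕ) : ℝ))) {M : ACA α}
    (hL : M.language = L) (hs : M.WorksInSpace t .strong) : False := by
  by_cases hb : ∀ (w : List α) (x : Config M), ReflTransGen (Step M) (M.init w) x →
      x.counter ≤ Nat.card (M.Q × Option α)
  · apply hreg
    have h1 : Language.IsRegular
        ({w | AccTree M {k | k ≤ Nat.card (M.Q × Option α)} (M.init w)} : Language α) :=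
      isRegular_bounded (Set.finite_le_nat _)
    have h2 : ({w | AccTree M {k | k ≤ Nat.card (M.Q × Option α)} (M.init w)} : Language α) = L := by
      rw [← hL]
      apply Set.ext
      intro w
      constructor
      · intro hw; exact AccTree.mono (Set.subset_univ _) hw
      · intro hw; exact AccTree.restrict hw (hb w)
    rwa [h2] at h1
  · push Not at hb
    obtain ⟨w, y, hy1, hy2⟩ := hb
    obtain ⟨x, x', h1, h2, h3, h4, h5, h6⟩ := loop_exists rfl hy1 hy2
    obtain ⟨e0, he0⟩ := suffix_of_reach h5
    obtain ⟨e, he⟩ := suffix_of_reach h6.reach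
    have key : ∀ m : ℕ, m ≤ t (e0.length + x'.input.length + m * e.length) := by
      intro m
      have hh : x.input.head? = ((List.replicate m e).flatten ++ x'.input).head? := by
        cases m with
        | zero => simpa using h2
        | succ m =>
          cases e with
          | nil => simpa using h2
          | cons a e => rw [he]; simp [List.replicate_succ]
      have r1 := replace (Or.inr rfl) (t := 0) hh (posReach_zero h5) rfl e0 he0
      have r2 := iterate_loop h1 h3 h6 he h2 (g := x'.counter - x.counter) (by omega)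
        (u₁ := x'.input) rfl m 0
      have r3 := r1.trans r2
      have r4 := hs (e0 ++ ((List.replicate m e).flatten ++ x'.input)) _ (reach_iff.mpr r3)
      have r5 : m ≤ m * (x'.counter - x.counter) := Nat.le_mul_of_pos_right _ (by omega)
      have r6 : (e0 ++ ((List.replicate m e).flatten ++ x'.input)).length =
          e0.length + x'.input.length + m * e.length := by
        simp [List.length_flatten]; ring
      rw [r6] at r4
      simp only at r4
      omega
    -- contradiction
    obtain ⟨N0, hN0⟩ := eventually_atTop.mp (eventually_of_littleO (s := fun n => n) ht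
      (2 * (e.length + 1)))
    have h7 := key (N0 + e0.length + x'.input.length + 1)
    rcases Nat.eq_zero_or_pos e.length with h8 | h8
    · have h9 := key (t (e0.length + x'.input.length) + 1)
      rw [h8] at h9
      simp only [mul_zero, add_zero] at h9
      omega
    · have h9 := hN0 (e0.length + x'.input.length +
        (N0 + e0.length + x'.input.length + 1) * e.length) (by nlinarith)
      have h10 : 2 * (e.length + 1) * (N0 + e0.length + x'.input.length + 1) ≤
          2 * (e.length + 1) * t (e0.length + x'.input.length +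
            (N0 + e0.length + x'.input.length + 1) * e.length) := Nat.mul_le_mul_left _ h7
      nlinarith

/-- Lower bound for middle space, unary alphabet. -/
theorem middle_lower_unary {L : Language (Fin 1)} (hreg : ¬ L.IsRegular) {t : ℕ → ℕ}
    (ht : (fun n => (t n : ℝ)) =o[atTop] (fun n => ((n : ℕ) : ℝ))) {M : ACA (Fin 1)}
    (hL : M.language = L) (hs : M.WorksInSpace t .middle) : False := by
  by_cases hb : ∀ w ∈ L, ∀ (x : Config M), ReflTransGen (Step M) (M.init w) x →
      x.counter ≤ Nat.card (M.Q × Option (Fin 1))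
  · apply hreg
    have h1 : Language.IsRegular
        ({w | AccTree M {k | k ≤ Nat.card (M.Q × Option (Fin 1))} (M.init w)} :
        Language (Fin 1)) :=
      isRegular_bounded (Set.finite_le_nat _)
    have h2 : ({w | AccTree M {k | k ≤ Nat.card (M.Q × Option (Fin 1))} (M.init w)} :
        Language (Fin 1)) = L := by
      apply Set.ext
      intro w
      constructor
      · intro hw; rw [← hL]; exact AccTree.mono (Set.subset_univ _) hw
      · intro hw
        refine AccTree.restrict (b := Set.univ) ?_ (hb w hw)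
        rw [← hL] at hw
        exact hw
    rwa [h2] at h1
  · push Not at hb
    obtain ⟨w, hw, y, hy1, hy2⟩ := hb
    obtain ⟨x, x', h1, h2, h3, h4, h5, h6⟩ := loop_exists rfl hy1 hy2
    obtain ⟨e0, he0⟩ := suffix_of_reach h5
    obtain ⟨e, he⟩ := suffix_of_reach h6.reach
    have hlist : ∀ u v : List (Fin 1), u.length = v.length → u = v := by
      intro u v huv
      refine List.ext_getElem huv fun i _ _ => Subsingleton.elim _ _
    have hheads : ∀ u v : List (Fin 1), u ≠ [] → v ≠ [] → u.head? = v.head? := by
      intro u v hu hv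
      cases u with
      | nil => exact absurd rfl hu
      | cons a u =>
        cases v with
        | nil => exact absurd rfl hv
        | cons b v => simp [Subsingleton.elim a b]
    rcases Nat.eq_zero_or_pos e.length with h8 | h8
    · -- the loop reads nothing
      have he' : e = [] := List.length_eq_zero_iff.mp h8
      subst he'
      have r2 := iterate_loop h1 h3 h6 he h2 (g := x'.counter - x.counter) (by omega)
        (u₁ := x'.input) rfl (t w.length + 1) 0
      have hx : x.input = x'.input := by simpa using he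
      have r3 : ReflTransGen (Step M) (M.init w) ⟨x.state, x'.input,
          x.counter + 0 + (t w.length + 1) * (x'.counter - x.counter)⟩ := by
        refine h5.trans ?_
        have : x = ⟨x.state, (List.replicate (t w.length + 1) []).flatten ++ x'.input,
            x.counter + 0⟩ := by
          simp [← hx]
        rw [this] at r2 ⊢
        exact r2
      have r4 := hs w (by rw [hL]; exact hw) _ (reach_iff.mpr r3)
      have r5 : t w.length + 1 ≤ (t w.length + 1) * (x'.counter - x.counter) :=
        Nat.le_mul_of_pos_right _ (by omega)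
      simp only at r4
      omega
    · -- the loop reads something
      have hex : x.input ≠ [] := by
        rw [he]; intro h0
        have := congrArg List.length h0
        simp only [List.length_append, List.length_nil] at this
        omega
      have hex' : x'.input ≠ [] := by
        intro h0
        rw [h0] at h2
        cases hxi : x.input with
        | nil => exact hex hxi
        | cons a l => rw [hxi] at h2; simp at h2
      have key : ∀ w' ∈ L, e0.length + 1 ≤ w'.length →
          (w'.length - e0.length - 1) / e.length ≤ t w'.length := by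
        intro w' hw' hlen
        obtain ⟨m, hm⟩ : ∃ m, m = (w'.length - e0.length - 1) / e.length := ⟨_, rfl⟩
        have hm1 : m * e.length ≤ w'.length - e0.length - 1 := by
          rw [hm]; exact Nat.div_mul_le_self _ _
        rw [← hm]
        obtain ⟨u₁, hu₁⟩ : ∃ u₁ : List (Fin 1),
            u₁ = List.replicate (w'.length - e0.length - m * e.length) 0 := ⟨_, rfl⟩
        have hu₁l : u₁.length = w'.length - e0.length - m * e.length := by
          rw [hu₁, List.length_replicate]
        have hu₁n : u₁ ≠ [] := by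
          intro h0
          rw [h0, List.length_nil] at hu₁l
          omega
        have hw'e : w' = e0 ++ ((List.replicate m e).flatten ++ u₁) := by
          apply hlist
          simp only [List.length_append, List.length_flatten, List.map_replicate,
            List.sum_replicate, smul_eq_mul, hu₁l]
          omega
        have r1 := replace (Or.inr rfl) (t := 0)
          (hheads x.input ((List.replicate m e).flatten ++ u₁) hex (by simp [hu₁n]))
          (posReach_zero h5) rfl e0 he0
        have r2 := iterate_loop h1 h3 h6 he h2 (g := x'.counter - x.counter) (by omega)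
          (u₁ := u₁) (hheads _ _ hex' hu₁n) m 0
        have r3 := r1.trans r2
        rw [← hw'e] at r3
        have r4 := hs w' (by rw [hL]; exact hw') _ (reach_iff.mpr r3)
        have r5 : m ≤ m * (x'.counter - x.counter) := Nat.le_mul_of_pos_right _ (by omega)
        simp only at r4
        omega
      obtain ⟨N0, hN0⟩ := eventually_atTop.mp (eventually_of_littleO (s := fun n => n) ht
        (2 * (e.length + 1)))
      -- the language is finite
      have hfin : ∀ w' ∈ L, w'.length ≤ N0 + 2 * e0.length + 2 * e.length + 10 := by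
        intro w' hw'
        by_contra hcon
        push Not at hcon
        have k1 := key w' hw' (by omega)
        have k2 := hN0 w'.length (by omega)
        have k3 : w'.length - e0.length - 1 < e.length * ((w'.length - e0.length - 1) / e.length) +
            e.length := Nat.lt_mul_div_succ _ h8
        have k4 : e.length * ((w'.length - e0.length - 1) / e.length) ≤ e.length * t w'.length :=
          Nat.mul_le_mul_left _ k1
        have k5 : 2 * (e.length + 1) * t w'.length = 2 * (e.length * t w'.length) +
          2 * t w'.length := by ring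
        omega
      apply hreg
      refine isRegular_of_finite_range
        (fun v => min v.length (N0 + 2 * e0.length + 2 * e.length + 11)) ?_ ?_ L ?_
      · refine (Set.finite_le_nat (N0 + 2 * e0.length + 2 * e.length + 11)).subset ?_
        rintro _ ⟨v, rfl⟩
        exact min_le_right v.length _
      · intro a v v' hvv
        simp only [List.length_cons] at hvv ⊢
        omega
      · intro v v' hvv hv
        have h9 := hfin v hv
        have : v = v' := hlist _ _ (by omega)
        rw [← this]; exact hv

end Pool.Agent.Lib.MP_9ec89f_lc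
end

section

namespace Pool.Agent.Lib.MP_9ec89f_lc

open Relation

/-- The states of the machine. -/
inductive St : Type
  | S | P | C | K | N | E | I | O | OK | IN | IK | ON | A
  deriving DecidableEq, Fintype

open St

/-- transitions on the letter `a` -/
def dA : St → Bool → List (St × Bool × SignType)
  | S, _ => [(C, false, 0), (S, true, 1)]
  | P, _ => [(C, false, 0)]
  | C, _ => [(E, true, 0), (K, false, 0)]
  | K, true => [(A, false, 0)]
  | K, false => [(K, true, -1), (O, true, -1)]
  | N, true => []
  | N, false => [(N, true, -1), (I, true, -1), (E, true, -1)]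
  | E, _ => [(E, true, 0), (N, false, 0)]
  | I, _ => [(C, false, 0), (OK, false, 0), (IN, false, 0)]
  | O, _ => [(IK, false, 0), (ON, false, 0)]
  | OK, _ => [(O, true, 0), (K, false, 0)]
  | IN, _ => [(I, true, 0), (N, false, 0)]
  | IK, _ => [(I, true, 0), (K, false, 0)]
  | ON, _ => [(O, true, 0), (N, false, 0)]
  | A, _ => []

/-- transitions on other letters -/
def dB : St → List (St × Bool × SignType)
  | P => [(P, true, 1)]
  | _ => []

/-- transitions on the end marker -/
def dEnd : St → List (St × Bool × SignType)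
  | E => [(A, false, 0)]
  | N => [(A, false, 0)]
  | _ => []

/-- all transitions -/
def dl {α : Type} (isA : α → Bool) (q : St) (x : Option α) (z : Bool) :
    List (St × Bool × SignType) :=
  match x with
  | none => dEnd q
  | some a => if isA a then dA q z else dB q

/-- the machine -/
def mach {α : Type} (isA : α → Bool) (s : St) : ACA α where
  Q := St
  finQ := inferInstance
  start := s
  univ := {C, K, E, OK, IN, IK, ON}
  acc := {A}
  δ q x z := {t | t ∈ dl isA q x z}

section
variable {α : Type} {M : ACA α}

theorem accTree_iff {b : Set ℕ} {x : Config M} : AccTree M b x ↔ x.counter ∈ b ∧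
    (x.state ∈ M.acc ∨ (x.state ∉ M.univ ∧ ∃ y, Step M x y ∧ AccTree M b y) ∨
      (x.state ∈ M.univ ∧ (∃ y, Step M x y) ∧ ∀ y, Step M x y → AccTree M b y)) := by
  constructor
  · intro h
    cases h with
    | leaf h1 h2 => exact ⟨h1, Or.inl h2⟩
    | exist h1 h2 h3 h4 => exact ⟨h1, Or.inr (Or.inl ⟨h2, _, h3, h4⟩)⟩
    | univ h1 h2 h3 h4 => exact ⟨h1, Or.inr (Or.inr ⟨h2, ⟨_, h3⟩, h4⟩)⟩
  · rintro ⟨h1, h2 | ⟨h2, y, h3, h4⟩ | ⟨h2, ⟨y, h3⟩, h4⟩⟩
    · exact .leaf h1 h2
    · exact .exist h1 h2 h3 h4
    · exact .univ h1 h2 h3 h4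

/-- the configuration after a transition -/
def app (x : Config M) (t : M.Q × Bool × SignType) : Config M :=
  ⟨t.1, if t.2.1 then x.input.tail else x.input, ((x.counter : ℤ) + (t.2.2 : ℤ)).toNat⟩

/-- the transition is applicable -/
def Appl (x : Config M) (t : M.Q × Bool × SignType) : Prop :=
  (t.2.1 = true → x.input ≠ []) ∧ 0 ≤ (x.counter : ℤ) + (t.2.2 : ℤ)

theorem step_iff {x y : Config M} : Step M x y ↔
    ∃ t ∈ M.δ x.state x.input.head? (decide (x.counter = 0)), Appl x t ∧ y = app x t := by
  constructor
  · rintro ⟨mv, d, h1, h2, h3⟩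
    refine ⟨(y.state, mv, d), h1, ⟨?_, ?_⟩, ?_⟩
    · intro hmv
      simp only at hmv
      subst hmv
      simp only [if_true] at h2
      obtain ⟨a, ha⟩ := h2
      simp [ha]
    · simp only; omega
    · obtain ⟨q, v, c⟩ := y
      simp only at h2 h3
      unfold app
      congr 1
      · cases mv with
        | false => simpa using h2.symm
        | true =>
          simp only [if_true] at h2 ⊢
          obtain ⟨a, ha⟩ := h2
          simp [ha]
      · simp only; omega
  · rintro ⟨⟨q, mv, d⟩, h1, ⟨h2, h3⟩, rfl⟩
    refine ⟨mv, d, h1, ?_, ?_⟩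
    · cases mv with
      | false => simp [app]
      | true =>
        simp only [if_true, app]
        have := h2 rfl
        cases hx : x.input with
        | nil => exact absurd hx this
        | cons a v => exact ⟨a, rfl⟩
    · simp only [app]
      simp only at h3
      omega

end

section
variable {α : Type} {isA : α → Bool} {s : St} {b : Set ℕ}

/-- acceptance in the machine -/
def Ac (isA : α → Bool) (s : St) (b : Set ℕ) (q : St) (v : List α) (c : ℕ) : Prop :=
  AccTree (mach isA s) b ⟨q, v, c⟩

theorem ac_iff (q : St) (v : List α) (c : ℕ) : Ac isA s b q v c ↔ c ∈ b ∧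
    (q = A ∨
      (q ∉ ({C, K, E, OK, IN, IK, ON} : Set St) ∧
        ∃ t ∈ dl isA q v.head? (decide (c = 0)), ((t.2.1 = true → v ≠ []) ∧
          0 ≤ (c : ℤ) + (t.2.2 : ℤ)) ∧ Ac isA s b t.1 (if t.2.1 then v.tail else v)
            ((c : ℤ) + (t.2.2 : ℤ)).toNat) ∨
      (q ∈ ({C, K, E, OK, IN, IK, ON} : Set St) ∧
        (∃ t ∈ dl isA q v.head? (decide (c = 0)), (t.2.1 = true → v ≠ []) ∧
          0 ≤ (c : ℤ) + (t.2.2 : ℤ)) ∧
        (∀ t ∈ dl isA q v.head? (decide (c = 0)), ((t.2.1 = true → v ≠ []) ∧
          0 ≤ (c : ℤ) + (t.2.2 : ℤ)) → Ac isA s b t.1 (if t.2.1 then v.tail else v)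
            ((c : ℤ) + (t.2.2 : ℤ)).toNat))) := by
  unfold Ac
  rw [accTree_iff]
  refine and_congr Iff.rfl (or_congr Iff.rfl (or_congr (and_congr Iff.rfl ?_)
    (and_congr Iff.rfl (and_congr ?_ ?_))))
  · constructor
    · rintro ⟨y, hy, hy2⟩
      obtain ⟨t, h1, h2, h3⟩ := step_iff.mp hy
      subst h3
      exact ⟨t, h1, h2, hy2⟩
    · rintro ⟨t, h1, h2, h3⟩
      exact ⟨_, step_iff.mpr ⟨t, h1, h2, rfl⟩, h3⟩
  · constructor
    · rintro ⟨y, hy⟩
      obtain ⟨t, h1, h2, h3⟩ := step_iff.mp hy
      exact ⟨t, h1, h2⟩
    · rintro ⟨t, h1, h2⟩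
      exact ⟨_, step_iff.mpr ⟨t, h1, h2, rfl⟩⟩
  · constructor
    · intro h t h1 h2
      exact h _ (step_iff.mpr ⟨t, h1, h2, rfl⟩)
    · intro h y hy
      obtain ⟨t, h1, h2, h3⟩ := step_iff.mp hy
      subst h3
      exact h t h1 h2

theorem eqS {a : α} (ha : isA a = true) {v : List α} {c : ℕ} :
    Ac isA s b S (a :: v) c ↔ c ∈ b ∧ (Ac isA s b C (a :: v) c ∨ Ac isA s b S v (c + 1)) := by
  rw [ac_iff]
  simp [dl, dA, ha, show (0 : ℤ) ≤ (c : ℤ) + 1 by positivity]

theorem eqP {a : α} (ha : isA a = true) {v : List α} {c : ℕ} :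
    Ac isA s b P (a :: v) c ↔ c ∈ b ∧ Ac isA s b C (a :: v) c := by
  rw [ac_iff]
  simp [dl, dA, ha]

theorem eqPb {a : α} (ha : isA a = false) {v : List α} {c : ℕ} :
    Ac isA s b P (a :: v) c ↔ c ∈ b ∧ Ac isA s b P v (c + 1) := by
  rw [ac_iff]
  simp [dl, dB, ha, show (0 : ℤ) ≤ (c : ℤ) + 1 by positivity]

theorem eqC {a : α} (ha : isA a = true) {v : List α} {c : ℕ} :
    Ac isA s b C (a :: v) c ↔ c ∈ b ∧ (Ac isA s b E v c ∧ Ac isA s b K (a :: v) c) := by
  rw [ac_iff]
  simp [dl, dA, ha]

theorem eqA {v : List α} {c : ℕ} : Ac isA s b A v c ↔ c ∈ b := by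
  rw [ac_iff]
  simp

theorem eqK0 {a : α} (ha : isA a = true) {v : List α} :
    Ac isA s b K (a :: v) 0 ↔ 0 ∈ b := by
  rw [ac_iff]
  simp [dl, dA, ha, eqA]

theorem eqK1 {a : α} (ha : isA a = true) {v : List α} {c : ℕ} :
    Ac isA s b K (a :: v) (c + 1) ↔ c + 1 ∈ b ∧ (Ac isA s b K v c ∧ Ac isA s b O v c) := by
  rw [ac_iff]
  simp [dl, dA, ha]

theorem eqN0 {a : α} (ha : isA a = true) {v : List α} :
    ¬ Ac isA s b N (a :: v) 0 := by
  rw [ac_iff]
  simp [dl, dA, ha]

theorem eqN1 {a : α} (ha : isA a = true) {v : List α} {c : ℕ} :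
    Ac isA s b N (a :: v) (c + 1) ↔
      c + 1 ∈ b ∧ (Ac isA s b N v c ∨ Ac isA s b I v c ∨ Ac isA s b E v c) := by
  rw [ac_iff]
  simp [dl, dA, ha]

theorem eqE {a : α} (ha : isA a = true) {v : List α} {c : ℕ} :
    Ac isA s b E (a :: v) c ↔ c ∈ b ∧ (Ac isA s b E v c ∧ Ac isA s b N (a :: v) c) := by
  rw [ac_iff]
  simp [dl, dA, ha]

theorem eqOK {a : α} (ha : isA a = true) {v : List α} {c : ℕ} :
    Ac isA s b OK (a :: v) c ↔ c ∈ b ∧ (Ac isA s b O v c ∧ Ac isA s b K (a :: v) c) := by
  rw [ac_iff]
  simp [dl, dA, ha]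

theorem eqIN {a : α} (ha : isA a = true) {v : List α} {c : ℕ} :
    Ac isA s b IN (a :: v) c ↔ c ∈ b ∧ (Ac isA s b I v c ∧ Ac isA s b N (a :: v) c) := by
  rw [ac_iff]
  simp [dl, dA, ha]

theorem eqIK {a : α} (ha : isA a = true) {v : List α} {c : ℕ} :
    Ac isA s b IK (a :: v) c ↔ c ∈ b ∧ (Ac isA s b I v c ∧ Ac isA s b K (a :: v) c) := by
  rw [ac_iff]
  simp [dl, dA, ha]

theorem eqON {a : α} (ha : isA a = true) {v : List α} {c : ℕ} :
    Ac isA s b ON (a :: v) c ↔ c ∈ b ∧ (Ac isA s b O v c ∧ Ac isA s b N (a :: v) c) := by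
  rw [ac_iff]
  simp [dl, dA, ha]

theorem eqI {a : α} (ha : isA a = true) {v : List α} {c : ℕ} :
    Ac isA s b I (a :: v) c ↔ c ∈ b ∧
      (Ac isA s b C (a :: v) c ∨ Ac isA s b OK (a :: v) c ∨ Ac isA s b IN (a :: v) c) := by
  rw [ac_iff]
  simp [dl, dA, ha]

theorem eqO {a : α} (ha : isA a = true) {v : List α} {c : ℕ} :
    Ac isA s b O (a :: v) c ↔ c ∈ b ∧
      (Ac isA s b IK (a :: v) c ∨ Ac isA s b ON (a :: v) c) := by
  rw [ac_iff]
  simp [dl, dA, ha]

theorem endE {c : ℕ} : Ac isA s b E ([] : List α) c ↔ c ∈ b := by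
  rw [ac_iff]
  simp [dl, dEnd, eqA]

theorem endN {c : ℕ} : Ac isA s b N ([] : List α) c ↔ c ∈ b := by
  rw [ac_iff]
  simp [dl, dEnd, eqA]

theorem endOther {q : St} (h1 : q ≠ E) (h2 : q ≠ N) (h3 : q ≠ A) {c : ℕ} :
    ¬ Ac isA s b q ([] : List α) c := by
  rw [ac_iff]
  have : dEnd q = [] := by cases q <;> simp_all [dEnd]
  simp [dl, this, h3]

theorem otherB {a : α} (ha : isA a = false) {q : St} (h1 : q ≠ P) (h3 : q ≠ A) {v : List α}
    {c : ℕ} : ¬ Ac isA s b q (a :: v) c := by
  rw [ac_iff]
  have : dB q = [] := by cases q <;> simp_all [dB]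
  simp [dl, ha, this, h3]

/-! ### Arithmetic -/

theorem arithK (r c : ℕ) : (c + 1 < r + 1 ∧ 2 ^ (c + 1) ∣ (r + 1) - (c + 1)) ↔
    (c < r ∧ 2 ^ c ∣ r - c) ∧ (2 ^ c + c ≤ r ∧ (r - c) / 2 ^ c % 2 = 0) := by
  have e1 : (r + 1) - (c + 1) = r - c := by omega
  rw [e1, pow_succ]
  obtain ⟨d, hd⟩ : ∃ d, d = 2 ^ c := ⟨_, rfl⟩
  have hpos : 0 < d := by rw [hd]; positivity
  rw [← hd]
  constructor
  · rintro ⟨h1, k, hk⟩
    have hk0 : 0 < k := by
      rcases Nat.eq_zero_or_pos k with h | h
      · subst h; omega
      · exact h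
    refine ⟨⟨by omega, ⟨2 * k, by rw [hk]; ring⟩⟩, ?_, ?_⟩
    · have : d ≤ r - c := by rw [hk]; nlinarith
      omega
    · have : (r - c) / d = 2 * k := by
        rw [hk, mul_assoc]; exact Nat.mul_div_cancel_left _ hpos
      omega
  · rintro ⟨⟨h1, k, hk⟩, h2, h3⟩
    refine ⟨by omega, ?_⟩
    have : (r - c) / d = k := by rw [hk]; exact Nat.mul_div_cancel_left _ hpos
    rw [this] at h3
    refine ⟨k / 2, ?_⟩
    rw [hk, mul_assoc]; congr 1; omega

theorem arithE (r c : ℕ) : (r < 2 ^ c + c ∧ ¬ (c < r + 1 ∧ 2 ^ c ∣ r + 1 - c)) ↔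
    r + 1 < 2 ^ c + c := by
  obtain ⟨d, hd⟩ : ∃ d, d = 2 ^ c := ⟨_, rfl⟩
  have hpos : 0 < d := by rw [hd]; positivity
  rw [← hd]
  constructor
  · rintro ⟨h1, h2⟩
    by_contra h3
    apply h2
    have h4 : r + 1 - c = d := by omega
    exact ⟨by omega, by rw [h4]⟩
  · intro h
    refine ⟨by omega, ?_⟩
    rintro ⟨h1, h2⟩
    have := Nat.le_of_dvd (by omega) h2
    omega

theorem arithC (r c : ℕ) : (r < 2 ^ c + c ∧ (c < r + 1 ∧ 2 ^ c ∣ r + 1 - c)) ↔
    r + 1 = 2 ^ c + c := by
  obtain ⟨d, hd⟩ : ∃ d, d = 2 ^ c := ⟨_, rfl⟩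
  have hpos : 0 < d := by rw [hd]; positivity
  rw [← hd]
  constructor
  · rintro ⟨h1, h2, h3⟩
    have := Nat.le_of_dvd (by omega) h3
    omega
  · intro h
    have h4 : r + 1 - c = d := by omega
    exact ⟨by omega, by omega, by rw [h4]⟩

theorem arithDiv (r c : ℕ) (h : c ≤ r) :
    (r + 1 - c) / 2 ^ c = (r - c) / 2 ^ c + if 2 ^ c ∣ r + 1 - c then 1 else 0 := by
  have e : r + 1 - c = (r - c) + 1 := by omega
  rw [e, Nat.succ_div]

theorem arithI (r c : ℕ) : (r + 1 = 2 ^ c + c ∨
    ((2 ^ c + c ≤ r ∧ (r - c) / 2 ^ c % 2 = 0) ∧ (c < r + 1 ∧ 2 ^ c ∣ r + 1 - c)) ∨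
    ((r - c) / 2 ^ c % 2 = 1 ∧ ¬ (c < r + 1 ∧ 2 ^ c ∣ r + 1 - c))) ↔
    (r + 1 - c) / 2 ^ c % 2 = 1 := by
  by_cases hrc : c ≤ r
  · rw [arithDiv r c hrc]
    obtain ⟨d, hd⟩ : ∃ d, d = 2 ^ c := ⟨_, rfl⟩
    have hpos : 0 < d := by rw [hd]; positivity
    rw [← hd]
    by_cases hdvd : d ∣ r + 1 - c
    · rw [if_pos hdvd]
      have hcr : c < r + 1 := by omega
      by_cases hle : d + c ≤ r
      · have h0 : ¬ r + 1 = d + c := by omega
        simp only [h0, hle, hdvd, hcr, true_and, and_true, false_or, not_true, and_false, or_false]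
        omega
      · have h1 : r + 1 = d + c := by
          have := Nat.le_of_dvd (by omega) hdvd
          omega
        have h2 : (r - c) / d = 0 := Nat.div_eq_of_lt (by omega)
        simp only [h1, h2, true_or]
    · rw [if_neg hdvd]
      have h0 : ¬ r + 1 = d + c := by
        intro h
        apply hdvd
        have : r + 1 - c = d := by omega
        rw [this]
      simp only [h0, hdvd, and_false, false_or, not_false_eq_true, and_true, add_zero]
  · have h1 : r + 1 - c = 0 := by omega
    have h2 : r - c = 0 := by omega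
    have h3 : ¬ c < r + 1 := by omega
    have h4 : ¬ r + 1 = 2 ^ c + c := by
      have : 0 < 2 ^ c := by positivity
      omega
    have h5 : ¬ 2 ^ c + c ≤ r := by
      have : 0 < 2 ^ c := by positivity
      omega
    simp [h1, h2, h3, h4, h5]

theorem arithO (r c : ℕ) : (((r - c) / 2 ^ c % 2 = 1 ∧ (c < r + 1 ∧ 2 ^ c ∣ r + 1 - c)) ∨
    ((2 ^ c + c ≤ r ∧ (r - c) / 2 ^ c % 2 = 0) ∧ ¬ (c < r + 1 ∧ 2 ^ c ∣ r + 1 - c))) ↔
    (2 ^ c + c ≤ r + 1 ∧ (r + 1 - c) / 2 ^ c % 2 = 0) := by
  by_cases hrc : c ≤ r
  · rw [arithDiv r c hrc]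
    obtain ⟨d, hd⟩ : ∃ d, d = 2 ^ c := ⟨_, rfl⟩
    have hpos : 0 < d := by rw [hd]; positivity
    rw [← hd]
    by_cases hdvd : d ∣ r + 1 - c
    · rw [if_pos hdvd]
      have hcr : c < r + 1 := by omega
      by_cases hle : d + c ≤ r
      · have h0 : d + c ≤ r + 1 := by omega
        simp only [h0, hdvd, hcr, true_and, and_true, not_true, and_false, or_false]
        omega
      · have h2 : (r - c) / d = 0 := Nat.div_eq_of_lt (by omega)
        simp only [hle, h2]
        omega
    · rw [if_neg hdvd]
      have h0 : d + c ≤ r + 1 ↔ d + c ≤ r := by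
        constructor
        · intro h
          by_contra h'
          apply hdvd
          have : r + 1 - c = d := by omega
          rw [this]
        · intro h; omega
      simp only [h0, hdvd, and_false, false_or, not_false_eq_true, and_true, add_zero]
  · have h1 : r + 1 - c = 0 := by omega
    have h2 : r - c = 0 := by omega
    have h3 : ¬ c < r + 1 := by omega
    have h5 : ¬ 2 ^ c + c ≤ r := by
      have : 0 < 2 ^ c := by positivity
      omega
    have h6 : ¬ 2 ^ c + c ≤ r + 1 := by
      have : 0 < 2 ^ c := by positivity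
      omega
    simp [h1, h2, h3, h5, h6]

theorem arithN (r c : ℕ) : (¬ (c < r ∧ 2 ^ c ∣ r - c) ∨ (r - c) / 2 ^ c % 2 = 1 ∨
    r < 2 ^ c + c) ↔ ¬ (c + 1 < r + 1 ∧ 2 ^ (c + 1) ∣ (r + 1) - (c + 1)) := by
  rw [arithK]
  obtain ⟨p, hp⟩ : ∃ p, p = (c < r ∧ 2 ^ c ∣ r - c) := ⟨_, rfl⟩
  rw [← hp, not_and_or]
  refine or_congr Iff.rfl ?_
  omega

/-- The semantics of the machine on words of letters `a`. -/
theorem sem : ∀ (v : List α), (∀ x ∈ v, isA x = true) → ∀ c, (∀ k ≤ c, k ∈ b) →
    (Ac isA s b K v c ↔ (c < v.length ∧ 2 ^ c ∣ v.length - c)) ∧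
    (Ac isA s b N v c ↔ ¬ (c < v.length ∧ 2 ^ c ∣ v.length - c)) ∧
    (Ac isA s b E v c ↔ v.length < 2 ^ c + c) ∧
    (Ac isA s b I v c ↔ (v.length - c) / 2 ^ c % 2 = 1) ∧
    (Ac isA s b O v c ↔ (2 ^ c + c ≤ v.length ∧ (v.length - c) / 2 ^ c % 2 = 0)) := by
  intro v
  induction v with
  | nil =>
    intro _ c hc
    have hcb := hc c le_rfl
    refine ⟨?_, ?_, ?_, ?_, ?_⟩
    · simp [endOther (isA := isA) (s := s) (b := b) (q := K) (by decide) (by decide) (by decide)]
    · simp [endN, hcb]
    · simp [endE, hcb]
    · simp [endOther (isA := isA) (s := s) (b := b) (q := I) (by decide) (by decide) (by decide)]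
    · simp [endOther (isA := isA) (s := s) (b := b) (q := O) (by decide) (by decide) (by decide)]
  | cons a v ih =>
    intro hv c hc
    have ha : isA a = true := hv a (by simp)
    have hcb := hc c le_rfl
    have hv' : ∀ x ∈ v, isA x = true := fun x hx => hv x (by simp [hx])
    obtain ⟨jK, jN, jE, jI, jO⟩ := ih hv' c hc
    rw [List.length_cons]
    have hK : Ac isA s b K (a :: v) c ↔ (c < v.length + 1 ∧ 2 ^ c ∣ v.length + 1 - c) := by
      cases c with
      | zero => rw [eqK0 ha]; simp [hcb]
      | succ c =>
        obtain ⟨iK, iN, iE, iI, iO⟩ := ih hv' c (fun k hk => hc k (by omega))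
        rw [eqK1 ha, arithK, iK, iO]
        simp [hcb]
    have hN : Ac isA s b N (a :: v) c ↔ ¬ (c < v.length + 1 ∧ 2 ^ c ∣ v.length + 1 - c) := by
      cases c with
      | zero => simp [eqN0 ha]
      | succ c =>
        obtain ⟨iK, iN, iE, iI, iO⟩ := ih hv' c (fun k hk => hc k (by omega))
        rw [eqN1 ha, ← arithN, iN, iI, iE]
        simp [hcb]
    have hC : Ac isA s b C (a :: v) c ↔ v.length + 1 = 2 ^ c + c := by
      rw [eqC ha, jE, hK, arithC]
      simp [hcb]
    refine ⟨hK, hN, ?_, ?_, ?_⟩
    · rw [eqE ha, jE, hN, arithE]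
      simp [hcb]
    · rw [eqI ha, hC, eqOK ha, eqIN ha, jO, hK, jI, hN]
      simp only [hcb, true_and]
      exact arithI v.length c
    · rw [eqO ha, eqIK ha, eqON ha, jI, hK, jO, hN]
      simp only [hcb, true_and]
      exact arithO v.length c

theorem semC {v : List α} (hv : ∀ x ∈ v, isA x = true) {c : ℕ} (hc : ∀ k ≤ c, k ∈ b) :
    Ac isA s b C v c ↔ v.length = 2 ^ c + c := by
  cases v with
  | nil =>
    have : 0 < 2 ^ c := by positivity
    simp only [endOther (isA := isA) (s := s) (b := b) (q := C) (by decide) (by decide)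
      (by decide), List.length_nil, false_iff]
    omega
  | cons a v =>
    have ha : isA a = true := hv a (by simp)
    have hv' : ∀ x ∈ v, isA x = true := fun x hx => hv x (by simp [hx])
    have h1 := (sem (s := s) v hv' c hc).2.2.1
    have h2 := (sem (s := s) (a :: v) hv c hc).1
    rw [eqC ha, h1, h2, List.length_cons, arithC]
    simp [hc c le_rfl]

/-- Acceptance from the state `E` forces all letters to be `a`. -/
theorem allA_of_E {v : List α} {c : ℕ} (h : Ac isA s b E v c) : ∀ x ∈ v, isA x = true := by
  induction v with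
  | nil => intro x hx; simp at hx
  | cons a v ih =>
    cases ha : isA a with
    | false => exact absurd h (otherB ha (by decide) (by decide))
    | true =>
      rw [eqE ha] at h
      intro x hx
      rcases List.mem_cons.mp hx with h1 | h1
      · rw [h1]; exact ha
      · exact ih h.2.1 x h1

theorem allA_of_C {v : List α} {c : ℕ} (h : Ac isA s b C v c) : ∀ x ∈ v, isA x = true := by
  cases v with
  | nil => intro x hx; simp at hx
  | cons a v =>
    cases ha : isA a with
    | false => exact absurd h (otherB ha (by decide) (by decide))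
    | true =>
      rw [eqC ha] at h
      intro x hx
      rcases List.mem_cons.mp hx with h1 | h1
      · rw [h1]; exact ha
      · exact allA_of_E h.2.1 x h1

theorem semP : ∀ (v : List α) (c : ℕ), Ac isA s Set.univ P v c ↔
    ∃ e u, v = e ++ u ∧ (∀ x ∈ e, isA x = false) ∧ (∀ x ∈ u, isA x = true) ∧
      u.length = 2 ^ (c + e.length) + (c + e.length) := by
  intro v
  induction v with
  | nil =>
    intro c
    simp only [endOther (isA := isA) (s := s) (b := Set.univ) (q := P) (by decide) (by decide)
      (by decide), false_iff]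
    rintro ⟨e, u, h1, -, -, h2⟩
    have h3 : u = [] := (List.append_eq_nil_iff.mp h1.symm).2
    rw [h3, List.length_nil] at h2
    have : 0 < 2 ^ (c + e.length) := by positivity
    omega
  | cons a v ih =>
    intro c
    cases ha : isA a with
    | false =>
      rw [eqPb ha, ih]
      simp only [Set.mem_univ, true_and]
      constructor
      · rintro ⟨e, u, h1, h2, h3, h4⟩
        refine ⟨a :: e, u, by rw [h1]; rfl, ?_, h3, ?_⟩
        · intro x hx
          rcases List.mem_cons.mp hx with h5 | h5
          · rw [h5]; exact ha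
          · exact h2 x h5
        · rw [List.length_cons, show c + (e.length + 1) = c + 1 + e.length by ring]; exact h4
      · rintro ⟨e, u, h1, h2, h3, h4⟩
        cases e with
        | nil =>
          exfalso
          have : isA a = true := h3 a (by rw [List.nil_append] at h1; rw [← h1]; simp)
          rw [ha] at this; simp at this
        | cons a' e =>
          rw [List.cons_append, List.cons.injEq] at h1
          refine ⟨e, u, h1.2, fun x hx => h2 x (by simp [hx]), h3, ?_⟩
          rw [List.length_cons, show c + (e.length + 1) = c + 1 + e.length by ring] at h4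
          exact h4
    | true =>
      rw [eqP ha]
      simp only [Set.mem_univ, true_and]
      constructor
      · intro h
        have hall := allA_of_C h
        rw [semC hall (fun _ _ => Set.mem_univ _)] at h
        exact ⟨[], a :: v, rfl, by simp, hall, by simpa using h⟩
      · rintro ⟨e, u, h1, h2, h3, h4⟩
        cases e with
        | nil =>
          rw [List.nil_append] at h1
          rw [← h1] at h3 h4
          rw [semC h3 (fun _ _ => Set.mem_univ _)]
          simpa using h4
        | cons a' e =>
          exfalso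
          rw [List.cons_append, List.cons.injEq] at h1
          have : isA a' = false := h2 a' (by simp)
          rw [← h1.1, ha] at this
          simp at this

theorem semS : ∀ (v : List α), (∀ x ∈ v, isA x = true) → ∀ (c : ℕ), Ac isA s b S v c ↔
    ∃ d, (∀ k, c ≤ k → k ≤ c + d → k ∈ b) ∧ (Ac isA s b C (v.drop d) (c + d)) ∧ d < v.length := by
  intro v
  induction v with
  | nil =>
    intro _ c
    simp [endOther (isA := isA) (s := s) (b := b) (q := S) (by decide) (by decide)
      (by decide)]
  | cons a v ih =>
    intro hv c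
    have ha : isA a = true := hv a (by simp)
    have hv' : ∀ x ∈ v, isA x = true := fun x hx => hv x (by simp [hx])
    rw [eqS ha, ih hv']
    constructor
    · rintro ⟨h1, h2 | ⟨d, h2, h3, h4⟩⟩
      · exact ⟨0, fun k hk hk' => by rwa [show k = c by omega], h2, by simp⟩
      · refine ⟨d + 1, fun k hk hk' => ?_, ?_, by simpa using h4⟩
        · rcases Nat.eq_or_lt_of_le hk with h5 | h5
          · rw [← h5]; exact h1
          · exact h2 k (by omega) (by omega)
        · rw [List.drop_succ_cons, show c + (d + 1) = c + 1 + d by ring]; exact h3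
    · rintro ⟨d, h2, h3, h4⟩
      refine ⟨h2 c le_rfl (by omega), ?_⟩
      cases d with
      | zero => left; exact h3
      | succ d =>
        right
        refine ⟨d, fun k hk hk' => h2 k (by omega) (by omega), ?_, by simpa using h4⟩
        rw [List.drop_succ_cons, show c + (d + 1) = c + 1 + d by ring] at h3; exact h3

/-! ### Space and time of the machine -/

/-- rank for the realtime property -/
def rk : St → ℕ
  | S => 3 | P => 3 | C => 2 | K => 1 | N => 1 | E => 2 | I => 3 | O => 3
  | OK => 2 | IN => 2 | IK => 2 | ON => 2 | A => 0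

theorem dl_facts {q : St} {x : Option α} {z : Bool} {t : St × Bool × SignType}
    (h : t ∈ dl isA q x z) :
    (t.2.1 = false → rk t.1 < rk q ∧ (t.2.2 = 0)) ∧
    (q ≠ P → q ≠ S → t.1 ≠ P ∧ t.1 ≠ S ∧ (t.2.2 = 0 ∨ t.2.2 = -1)) := by
  cases x with
  | none =>
    simp only [dl] at h
    cases q <;> simp only [dEnd, List.mem_singleton, List.not_mem_nil] at h <;> subst h <;>
      simp [rk]
  | some a =>
    simp only [dl] at h
    cases ha : isA a with
    | true =>
      simp only [ha, if_true] at h
      cases q <;> cases z <;> simp only [dA, List.mem_cons, List.not_mem_nil, or_false] at h <;>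
        (try rcases h with h | h | h) <;> (try rcases h with h | h) <;>
        simp [rk]
    | false =>
      simp only [ha] at h
      cases q <;> simp [dB] at h <;> subst h <;> simp

theorem step_rank {x y : Config (mach isA s)} (h : Step (mach isA s) x y) :
    y.input.length < x.input.length ∨
      (y.input.length = x.input.length ∧ rk y.state < rk x.state) := by
  obtain ⟨t, h1, ⟨h2, h3⟩, rfl⟩ := step_iff.mp h
  obtain ⟨h4, -⟩ := dl_facts (isA := isA) (q := x.state) (t := t) h1
  cases ht : t.2.1 with
  | true =>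
    left
    simp only [app, ht, if_true]
    have := h2 ht
    cases hx : x.input with
    | nil => exact absurd hx this
    | cons a v => simp
  | false =>
    right
    simp only [app, ht]
    exact ⟨by simp, (h4 ht).1⟩

theorem steps_rank {n : ℕ} {x y : Config (mach isA s)} (h : Steps (mach isA s) n x y) :
    y.input.length < x.input.length ∨
      (y.input.length = x.input.length ∧ rk y.state + n ≤ rk x.state) := by
  induction h with
  | refl x => right; simp
  | tail h1 h2 ih =>
    have := step_rank h2
    omega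

theorem mach_realtime : (mach isA s).IsRealtime := by
  refine ⟨4, fun w x y _ h => ?_⟩
  have h1 := steps_rank h
  have h2 : rk x.state ≤ 3 := by
    have : ∀ q : St, rk q ≤ 3 := by decide
    exact this _
  omega

theorem step_sum {x y : Config (mach isA s)} (h : Step (mach isA s) x y) :
    y.counter + y.input.length ≤ x.counter + x.input.length := by
  obtain ⟨t, h1, ⟨h2, h3⟩, rfl⟩ := step_iff.mp h
  obtain ⟨h4, -⟩ := dl_facts (isA := isA) (q := x.state) (t := t) h1
  cases ht : t.2.1 with
  | true =>
    simp only [app, ht, if_true]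
    have := h2 ht
    have h5 : (t.2.2 : ℤ) ≤ 1 := by cases t.2.2 <;> decide
    cases hx : x.input with
    | nil => exact absurd hx this
    | cons a v => simp only [List.tail_cons, List.length_cons]; omega
  | false =>
    obtain ⟨h5, h6⟩ := h4 ht
    simp only [app, ht, h6]
    simp

theorem mach_strong : (mach isA s).WorksInSpace (fun n => n) .strong := by
  intro w x h
  rw [reach_iff] at h
  have : x.counter + x.input.length ≤ ((mach isA s).init w).counter +
      ((mach isA s).init w).input.length := by
    induction h with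
    | refl => exact le_rfl
    | tail _ h2 ih => exact (step_sum h2).trans ih
  simp only [ACA.init] at this
  show x.counter ≤ w.length
  omega

theorem step_check {x y : Config (mach isA s)} (hP : x.state ≠ P) (hS : x.state ≠ S)
    (h : Step (mach isA s) x y) : y.state ≠ P ∧ y.state ≠ S ∧ y.counter ≤ x.counter := by
  obtain ⟨t, h1, ⟨h2, h3⟩, rfl⟩ := step_iff.mp h
  obtain ⟨h4, h5, h6⟩ := (dl_facts (isA := isA) (q := x.state) (t := t) h1).2 hP hS
  refine ⟨h4, h5, ?_⟩
  simp only [app]
  rcases h6 with h6 | h6 <;> rw [h6] <;> simp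

/-- The counter on members of the language of the machine started in `P`. -/
theorem mach_middle {e u : List α} (he : ∀ x ∈ e, isA x = false) (hu : ∀ x ∈ u, isA x = true)
    (hne : u ≠ []) {x : Config (mach isA P)}
    (h : ReflTransGen (Step (mach isA P)) ((mach isA P).init (e ++ u)) x) :
    x.counter ≤ e.length := by
  have key : (x.state = P ∧ ∃ e', x.input = e' ++ u ∧ (∀ y ∈ e', isA y = false) ∧
      x.counter + e'.length = e.length) ∨
      (x.state ≠ P ∧ x.state ≠ S ∧ x.counter ≤ e.length) := by
    induction h with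
    | refl => left; exact ⟨rfl, e, rfl, he, by simp [ACA.init]⟩
    | @tail x y _ h2 ih =>
      rcases ih with ⟨h3, e', h4, h5, h6⟩ | ⟨h3, h4, h5⟩
      · obtain ⟨t, h7, ⟨h8, h9⟩, rfl⟩ := step_iff.mp h2
        have h7' : t ∈ dl isA x.state x.input.head? (decide (x.counter = 0)) := h7
        rw [h3, h4] at h7'
        cases e' with
        | nil =>
          cases u with
          | nil => exact absurd rfl hne
          | cons a u =>
            have ha := hu a (by simp)
            simp only [List.nil_append, List.head?_cons, dl, ha, if_true, dA] at h7'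
            obtain rfl : t = (C, false, 0) := List.mem_singleton.mp h7'
            right
            refine ⟨by simp [app], by simp [app], ?_⟩
            simp only [List.length_nil, add_zero] at h6
            simp [app, h6]
        | cons a e' =>
          have ha := h5 a (by simp)
          simp only [List.cons_append, List.head?_cons, dl, ha, dB] at h7'
          simp only [Bool.false_eq_true, if_false] at h7'
          obtain rfl : t = (P, true, 1) := List.mem_singleton.mp h7'
          left
          refine ⟨rfl, e', by simp [app, h4], fun y hy => h5 y (by simp [hy]), ?_⟩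
          simp only [List.length_cons] at h6
          simp only [app, SignType.coe_one]
          omega
      · obtain ⟨h6, h7, h8⟩ := step_check h3 h4 h2
        exact Or.inr ⟨h6, h7, h8.trans h5⟩
  rcases key with ⟨-, e', -, -, h⟩ | ⟨-, -, h⟩
  · omega
  · exact h

end

/-! ### The two languages -/

/-- the unary language -/
def LU : Language (Fin 1) := {w | ∃ n, w.length = 2 ^ n + 2 * n}

/-- the binary language; `0` is the letter `a`, `1` is the letter `b` -/
def LBin : Language (Fin 2) := {w | ∃ n, w = List.replicate n 1 ++ List.replicate (2 ^ n + n) 0}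

theorem mach_lang_unary : (mach (fun _ : Fin 1 => true) S).language = LU := by
  apply Set.ext
  intro w
  have h1 := semS (isA := fun _ : Fin 1 => true) (s := S) (b := Set.univ) w (by simp) 0
  constructor
  · intro h
    obtain ⟨d, -, h2, h3⟩ := h1.mp h
    rw [semC (by simp) (by simp), List.length_drop] at h2
    refine ⟨d, ?_⟩
    simp only [zero_add] at h2
    omega
  · rintro ⟨n, hn⟩
    refine h1.mpr ⟨n, by simp, ?_, ?_⟩
    · rw [semC (by simp) (by simp), List.length_drop, hn, zero_add]
      have : 0 < 2 ^ n := by positivity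
      omega
    · have : 0 < 2 ^ n := by positivity
      omega

theorem mach_weak_unary : (mach (fun _ : Fin 1 => true) S).WorksInSpace (Nat.log 2) .weak := by
  intro w hw
  rw [mach_lang_unary] at hw
  obtain ⟨n, hn⟩ := hw
  have hlog : n ≤ Nat.log 2 w.length := by
    apply Nat.le_log_of_pow_le (by norm_num)
    omega
  refine (semS (isA := fun _ : Fin 1 => true) (s := S) w (by simp) 0).mpr ⟨n, ?_, ?_, ?_⟩
  · intro k _ hk
    show k ≤ Nat.log 2 w.length
    omega
  · rw [semC (by simp) ?_, List.length_drop, hn, zero_add]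
    · have : 0 < 2 ^ n := by positivity
      omega
    · intro k hk
      show k ≤ Nat.log 2 w.length
      omega
  · have : 0 < 2 ^ n := by positivity
    omega

/-- the letter `0` is the letter `a` -/
def isZ : Fin 2 → Bool := fun x => decide (x = 0)

theorem mach_lang_binary : (mach isZ P).language = LBin := by
  apply Set.ext
  intro w
  have h1 := semP (isA := isZ) (s := P) w 0
  have hb : ∀ x : Fin 2, isZ x = false → x = 1 := by decide
  have ha : ∀ x : Fin 2, isZ x = true → x = 0 := by decide
  constructor
  · intro h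
    obtain ⟨e, u, h2, h3, h4, h5⟩ := h1.mp h
    refine ⟨e.length, ?_⟩
    rw [zero_add] at h5
    rw [← h5, h2]
    congr 1
    · exact List.eq_replicate_of_mem fun x hx => hb x (h3 x hx)
    · exact List.eq_replicate_of_mem fun x hx => ha x (h4 x hx)
  · rintro ⟨n, hn⟩
    refine h1.mpr ⟨_, _, hn, ?_, ?_, ?_⟩
    · intro x hx
      rw [List.eq_of_mem_replicate hx]; rfl
    · intro x hx
      rw [List.eq_of_mem_replicate hx]; rfl
    · simp

theorem mach_middle_binary : (mach isZ P).WorksInSpace (Nat.log 2) .middle := by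
  intro w hw x hx
  rw [mach_lang_binary] at hw
  obtain ⟨n, hn⟩ := hw
  have h1 : x.counter ≤ (List.replicate n (1 : Fin 2)).length := by
    refine mach_middle (isA := isZ) (u := List.replicate (2 ^ n + n) 0) ?_ ?_ ?_ ?_
    · intro y hy
      rw [List.eq_of_mem_replicate hy]; rfl
    · intro y hy
      rw [List.eq_of_mem_replicate hy]; rfl
    · intro h
      have h2 := congrArg List.length h
      have : 0 < 2 ^ n := by positivity
      simp only [List.length_replicate, List.length_nil] at h2
      omega
    · rw [← hn]; exact reach_iff.mp hx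
  rw [List.length_replicate] at h1
  refine h1.trans ?_
  apply Nat.le_log_of_pow_le (by norm_num)
  rw [hn]
  simp only [List.length_append, List.length_replicate]
  omega

theorem weak_of_middle {α : Type} {M : ACA α} {t : ℕ → ℕ} (h : M.WorksInSpace t .middle) :
    M.WorksInSpace t .weak := by
  intro w hw
  exact AccTree.restrict (b := Set.univ) hw fun y hy => h w hw y (reach_iff.mpr hy)

theorem middle_of_strong {α : Type} {M : ACA α} {t : ℕ → ℕ} (h : M.WorksInSpace t .strong) :
    M.WorksInSpace t .middle := by
  intro w _ x hx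
  exact h w x hx

/-! ### Nonregularity -/

theorem gmono {m n : ℕ} (h : m < n) : 2 ^ m + 2 * m + 2 ^ m + 2 ≤ 2 ^ n + 2 * n := by
  have : 2 ^ (m + 1) ≤ 2 ^ n := Nat.pow_le_pow_right (by norm_num) h
  rw [pow_succ] at this
  omega

theorem LU_not_regular : ¬ LU.IsRegular := by
  intro h
  rw [Language.isRegular_iff_finite_range_leftQuotient] at h
  have hinj : Function.Injective
      (fun n : ℕ => LU.leftQuotient (List.replicate (2 ^ n + 2 * n) 0)) := by
    intro n m hnm
    by_contra hne
    wlog hlt : n < m generalizing n m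
    · exact this hnm.symm (Ne.symm hne) (by omega)
    have h1 : List.replicate (2 ^ n + 2) (0 : Fin 1) ∈
        LU.leftQuotient (List.replicate (2 ^ n + 2 * n) 0) := by
      refine ⟨n + 1, ?_⟩
      simp only [List.length_append, List.length_replicate, pow_succ]
      omega
    simp only at hnm
    rw [hnm] at h1
    obtain ⟨k, hk⟩ := h1
    simp only [List.length_append, List.length_replicate] at hk
    have p1 : 0 < 2 ^ n := by positivity
    have p2 : 0 < 2 ^ k := by positivity
    rcases lt_trichotomy k m with h2 | h2 | h2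
    · have := gmono h2
      omega
    · subst h2
      omega
    · have h3 := gmono h2
      have : 2 ^ n < 2 ^ m := Nat.pow_lt_pow_right (by norm_num) hlt
      omega
  exact Set.infinite_range_of_injective hinj (h.subset (by rintro _ ⟨n, rfl⟩; exact ⟨_, rfl⟩))

theorem LBin_not_regular : ¬ LBin.IsRegular := by
  intro h
  rw [Language.isRegular_iff_finite_range_leftQuotient] at h
  have hinj : Function.Injective (fun n : ℕ => LBin.leftQuotient (List.replicate n 1)) := by
    intro n m hnm
    have h1 : List.replicate (2 ^ n + n) (0 : Fin 2) ∈ LBin.leftQuotient (List.replicate n 1) :=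
      ⟨n, rfl⟩
    simp only at hnm
    rw [hnm] at h1
    obtain ⟨k, hk⟩ := h1
    have h2 := congrArg (List.count 1) hk
    have h3 := congrArg (List.count 0) hk
    simp only [List.count_append, List.count_replicate] at h2 h3
    simp only [Fin.isValue, BEq.rfl, if_true, Fin.reduceBEq, Bool.false_eq_true, if_false,
      add_zero, zero_add] at h2 h3
    subst h2
    rcases lt_trichotomy n m with h4 | h4 | h4
    · have : 2 ^ n < 2 ^ m := Nat.pow_lt_pow_right (by norm_num) h4
      omega
    · exact h4
    · have : 2 ^ m < 2 ^ n := Nat.pow_lt_pow_right (by norm_num) h4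
      omega
  exact Set.infinite_range_of_injective hinj (h.subset (by rintro _ ⟨n, rfl⟩; exact ⟨_, rfl⟩))

end Pool.Agent.Lib.MP_9ec89f_lc
end
end
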